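import Mathlib

/-!
# Sets of size less than the continuum are naively Haar null in the Cantor group squared

For the compact Polish group `G = 2 ^ ω`, every subset of `G × G` of size less than the continuum
is naively Haar null. Hence, if `non(N) < 𝔠`, then `S × S` is naively Haar null for every
`S ⊆ G` of size `non(N)`.
-/

set_option autoImplicit false

open MeasureTheory Set Cardinal

namespace Pool.Agent.Results.MP_547692_lc.SmallSetsNaivelyNull

/-- The Cantor group `2 ^ ω`, with coordinatewise addition modulo 2, the product topology and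
its Borel sets. -/
abbrev G : Type := ℕ → ZMod 2

/-- A subset `X` of a topological group `H` (written additively, with its Borel sets) is naively
Haar null if there is a Borel probability measure `μ` with `μ (g + X + h) = 0` for all
`g, h ∈ H`. Here `μ` of an arbitrary set is its outer measure. -/
def NaivelyHaarNull {H : Type} [AddGroup H] [TopologicalSpace H] [MeasurableSpace H]
    [BorelSpace H] (X : Set H) : Prop :=
  ∃ μ : Measure H, IsProbabilityMeasure μ ∧ ∀ g h : H, μ ((fun x => g + x + h) '' X) = 0

/-- The least cardinality of a set that is not null for the measure `lam`. -/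
noncomputable def nonN {H : Type} [MeasurableSpace H] (lam : Measure H) : Cardinal :=
  sInf {κ | ∃ S : Set H, Cardinal.mk S = κ ∧ lam S ≠ 0}

/-! ## An almost disjoint family of size continuum -/

/-- The code of the restriction of `f` to `k`. -/
def pcode (f : ℕ → Bool) : ℕ → ℕ
  | 0 => 1
  | k + 1 => 2 * pcode f k + (if f k then 1 else 0)

lemma pcode_pos (f : ℕ → Bool) (k : ℕ) : 0 < pcode f k := by
  induction k with
  | zero => exact Nat.one_pos
  | succ k ih =>
    change 0 < 2 * pcode f k + (if f k then 1 else 0)
    omega

lemma pcode_eq {f g : ℕ → Bool} {k m : ℕ} (h : pcode f k = pcode g m) :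
    k = m ∧ ∀ i < k, f i = g i := by
  induction k generalizing m with
  | zero =>
    rcases m with _ | m
    · exact ⟨rfl, fun i hi => absurd hi (Nat.not_lt_zero i)⟩
    · have h1 := pcode_pos g m
      change 1 = 2 * pcode g m + (if g m then 1 else 0) at h
      omega
  | succ k ih =>
    rcases m with _ | m
    · have h1 := pcode_pos f k
      change 2 * pcode f k + (if f k then 1 else 0) = 1 at h
      omega
    · change 2 * pcode f k + (if f k then 1 else 0) = 2 * pcode g m + (if g m then 1 else 0) at h
      have h1 : pcode f k = pcode g m := by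
        split_ifs at h <;> omega
      obtain ⟨rfl, h2⟩ := ih h1
      refine ⟨rfl, fun i hi => ?_⟩
      rcases Nat.lt_succ_iff_lt_or_eq.1 hi with hi | rfl
      · exact h2 i hi
      · by_cases hf : f i <;> by_cases hg : g i <;> simp_all

lemma pcode_injective (f : ℕ → Bool) : Function.Injective (pcode f) := fun _ _ h => (pcode_eq h).1

/-- Two different branches have almost disjoint code sets. -/
lemma eq_of_infinite {f g : ℕ → Bool} {s : Set ℕ} (hs : s.Infinite)
    (hf : s ⊆ range (pcode f)) (hg : s ⊆ range (pcode g)) : f = g := by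
  funext i
  by_contra hne
  refine hs (((finite_Iic i).image (pcode f)).subset fun n hn => ?_)
  obtain ⟨k, rfl⟩ := hf hn
  obtain ⟨m, hm⟩ := hg hn
  refine ⟨k, ?_, rfl⟩
  rw [mem_Iic]
  by_contra hk
  push Not at hk
  exact hne ((pcode_eq hm.symm).2 i hk)

/-! ## The embeddings -/

open Classical in
/-- The embedding of `2 ^ ω` in itself with the coordinates moved to the code set of `f`. -/
noncomputable def emb (f : ℕ → Bool) (x : G) : G := fun n =>
  if h : ∃ k, pcode f k = n then x h.choose else 0

lemma emb_pcode (f : ℕ → Bool) (x : G) (k : ℕ) : emb f x (pcode f k) = x k := by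
  have h : ∃ j, pcode f j = pcode f k := ⟨k, rfl⟩
  unfold emb
  rw [dif_pos h, pcode_injective f h.choose_spec]

lemma emb_of_notMem (f : ℕ → Bool) (x : G) {n : ℕ} (hn : n ∉ range (pcode f)) :
    emb f x n = 0 := by
  unfold emb
  exact dif_neg hn

lemma emb_add (f : ℕ → Bool) (x y : G) : emb f (x + y) = emb f x + emb f y := by
  funext n
  by_cases hn : n ∈ range (pcode f)
  · obtain ⟨k, rfl⟩ := hn
    rw [Pi.add_apply, emb_pcode, emb_pcode, emb_pcode, Pi.add_apply]
  · rw [Pi.add_apply, emb_of_notMem f _ hn, emb_of_notMem f _ hn, emb_of_notMem f _ hn, add_zero]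

lemma emb_injective (f : ℕ → Bool) : Function.Injective (emb f) := by
  intro x y h
  funext k
  rw [← emb_pcode f x, h, emb_pcode]

lemma continuous_emb (f : ℕ → Bool) : Continuous (emb f) := by
  refine continuous_pi fun n => ?_
  unfold emb
  split_ifs with h
  · exact continuous_apply (A := fun _ => ZMod 2) h.choose
  · exact continuous_const

lemma add_self (x : G) : x + x = 0 := by
  funext i
  exact CharTwo.add_self_eq_zero (x i)

/-- There are only countably many points of finite support. -/
lemma countable_finite_support : {x : G | {n | x n ≠ 0}.Finite}.Countable := by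
  have h : {x : G | {n | x n ≠ 0}.Finite} ⊆ range fun s : Finset ℕ => fun n => if n ∈ s then 1 else 0 := by
    intro x hx
    refine ⟨Set.Finite.toFinset hx, ?_⟩
    funext n
    by_cases hn : x n = 0
    · simp [hn]
    · have h1 : x n = 1 := by
        have h2 : ∀ a : ZMod 2, a ≠ 0 → a = 1 := by decide
        exact h2 _ hn
      simp [h1]
  exact (countable_range _).mono h

lemma mk_G : Cardinal.mk G = Cardinal.continuum := by simp

/-- There is an atomless Borel probability measure on `2 ^ ω`. -/
lemma exists_atomless : ∃ ν : Measure G, IsProbabilityMeasure ν ∧ ∀ s : Set G, s.Countable → ν s = 0 := by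
  have hG : ¬ Countable G := by
    intro h
    have h1 : Cardinal.mk G ≤ Cardinal.aleph0 := Cardinal.mk_le_aleph0
    rw [mk_G] at h1
    exact absurd Cardinal.aleph0_lt_continuum (not_lt.2 h1)
  have hR : ¬ Countable ℝ := by
    rw [not_countable_iff]
    infer_instance
  have hpol : PolishSpace (ZMod 2) := inferInstance
  let E : ℝ ≃ᵐ G := PolishSpace.measurableEquivOfNotCountable hR hG
  refine ⟨Measure.map E (volume.restrict (Icc (0 : ℝ) 1)), ?_, ?_⟩
  · refine ⟨?_⟩
    rw [E.map_apply]
    simp
  · intro s hs
    rw [E.map_apply]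
    refine Set.Countable.measure_zero ?_ _
    exact hs.preimage E.injective

lemma naivelyHaarNull_of_card_lt (X : Set (G × G)) (hX : Cardinal.mk X < Cardinal.continuum) :
    NaivelyHaarNull X := by
  classical
  -- choose a branch avoiding all differences
  let φ : X × X → (ℕ → Bool) := fun d =>
    if h : ∃ f : ℕ → Bool, {n | (d.1.1 + d.2.1).1 n ≠ 0} ⊆ range (pcode f) then h.choose
    else fun _ => false
  obtain ⟨f, hf⟩ : ∃ f, f ∉ range φ := by
    by_contra hcon
    push Not at hcon
    have h1 : Cardinal.mk (ℕ → Bool) ≤ Cardinal.mk (X × X) :=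
      Cardinal.mk_le_of_surjective (f := φ) hcon
    have h2 : Cardinal.mk (X × X) < Cardinal.continuum := by
      rw [Cardinal.mk_prod, Cardinal.lift_id]
      exact Cardinal.mul_lt_of_lt Cardinal.aleph0_le_continuum hX hX
    have h3 : Cardinal.mk (ℕ → Bool) = Cardinal.continuum := by simp
    rw [h3] at h1
    exact absurd h2 (not_lt.2 h1)
  have hfin : ∀ d : X × X, {n | (d.1.1 + d.2.1).1 n ≠ 0} ⊆ range (pcode f) →
      {n | (d.1.1 + d.2.1).1 n ≠ 0}.Finite := by
    intro d hd
    by_contra hinf
    refine hf ⟨d, ?_⟩
    have h : ∃ f : ℕ → Bool, {n | (d.1.1 + d.2.1).1 n ≠ 0} ⊆ range (pcode f) := ⟨f, hd⟩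
    change (if h : ∃ f : ℕ → Bool, {n | (d.1.1 + d.2.1).1 n ≠ 0} ⊆ range (pcode f) then h.choose
      else fun _ => false) = f
    rw [dif_pos h]
    exact eq_of_infinite hinf h.choose_spec hd
  obtain ⟨ν, hν, hν0⟩ := exists_atomless
  have hpol : PolishSpace (ZMod 2) := inferInstance
  have hpol' : PolishSpace G := inferInstance
  have hcont : Continuous fun x : G => (emb f x, (0 : G)) :=
    (continuous_emb f).prodMk continuous_const
  have hinj : Function.Injective fun x : G => (emb f x, (0 : G)) := fun x y h =>
    emb_injective f (Prod.ext_iff.1 h).1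
  have hme : MeasurableEmbedding fun x : G => (emb f x, (0 : G)) :=
    hcont.measurableEmbedding hinj
  refine ⟨Measure.map (fun x : G => (emb f x, (0 : G))) ν, ?_, fun g h => ?_⟩
  · exact Measure.isProbabilityMeasure_map hme.measurable.aemeasurable
  · rw [hme.map_apply]
    refine hν0 _ ?_
    rcases ((fun x : G => (emb f x, (0 : G))) ⁻¹' ((fun x => g + x + h) '' X)).eq_empty_or_nonempty
      with h0 | ⟨x0, hx0⟩
    · rw [h0]
      exact countable_empty
    · have hsub : ((fun x : G => (emb f x, (0 : G))) ⁻¹' ((fun x => g + x + h) '' X)) ⊆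
          (fun y => x0 + y) '' {x : G | {n | x n ≠ 0}.Finite} := by
        intro x hx
        obtain ⟨s0, hs0, hs0'⟩ := hx0
        obtain ⟨s, hs, hs'⟩ := hx
        refine ⟨x0 + x, ?_, ?_⟩
        · have h1 : (s0 + s).1 = emb f (x0 + x) := by
            have e1 : (g + s0 + h).1 = emb f x0 := congrArg Prod.fst hs0'
            have e2 : (g + s + h).1 = emb f x := congrArg Prod.fst hs'
            rw [emb_add, ← e1, ← e2]
            have e3 : (g + s0 + h).1 + (g + s + h).1 =
                (s0 + s).1 + ((g.1 + g.1) + (h.1 + h.1)) := by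
              simp only [Prod.fst_add]; abel
            rw [e3, add_self, add_self, add_zero, add_zero]
          have h2 := hfin (⟨s0, hs0⟩, ⟨s, hs⟩)
          change ({n | (s0 + s).1 n ≠ 0} ⊆ range (pcode f)) → {n | (s0 + s).1 n ≠ 0}.Finite at h2
          rw [h1] at h2
          have h3 : {n | emb f (x0 + x) n ≠ 0}.Finite := by
            refine h2 fun n hn => ?_
            by_contra hcon
            exact hn (emb_of_notMem f _ hcon)
          refine (h3.preimage (f := pcode f) (pcode_injective f).injOn).subset fun k hk => ?_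
          rw [mem_preimage, Set.mem_ofPred_eq, emb_pcode]
          exact hk
        · change x0 + (x0 + x) = x
          rw [← add_assoc, add_self, zero_add]
      exact (countable_finite_support.image _).mono hsub

/-- **Main result.** (1) Every `X ⊆ G × G` with `|X| < 𝔠` is naively Haar null, for the compact
Polish group `G = 2 ^ ω`. (2) Consequently, if `non(N) < 𝔠` (computed with a Haar measure of `G`)
then `S × S` is naively Haar null for every `S ⊆ G` of cardinality `non(N)`. -/
theorem result :
    (∀ X : Set ((ℕ → ZMod 2) × (ℕ → ZMod 2)), Cardinal.mk X < Cardinal.continuum →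
      NaivelyHaarNull X) ∧
    ∀ lam : Measure (ℕ → ZMod 2), lam.IsAddHaarMeasure → nonN lam < Cardinal.continuum →
      ∀ S : Set (ℕ → ZMod 2), Cardinal.mk S = nonN lam → NaivelyHaarNull (S ×ˢ S) := by
  refine ⟨naivelyHaarNull_of_card_lt, fun lam _ hlt S hS => naivelyHaarNull_of_card_lt _ ?_⟩
  rw [← hS] at hlt
  rw [Cardinal.mk_setProd]
  exact Cardinal.mul_lt_of_lt Cardinal.aleph0_le_continuum hlt hlt

end Pool.Agent.Results.MP_547692_lc.SmallSetsNaivelyNull
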